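import Pool.Agent.Helper971.SqR.Main
import Pool.Agent.Helper971.SqR.NoSimple
import Pool.Agent.Helper292.ForceCH

set_option autoImplicit false

open Set Filter Topology

namespace Pool.Agent.Results.MP_bc74b8_gt.NonePreserved

open Pool.Agent.Helper185.Sel

/-- (1) The continuum hypothesis can be forced, with `ω₁` preserved.  (2) Under the continuum
hypothesis none of `Split(Ω, Ω)`, `Split(Ω, T)`, `Split(T, T)` is preserved by squares of sets
of reals.  (3) If there is no ultrafilter generated by a chain modulo finite sets then every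
finite power of every set of reals satisfies `Split(T, T)`. -/
theorem result :
    (∃ (P : Type) (_ : Preorder P), Nonempty P ∧ ∀ p : P,
      p ∈ Pool.Agent.Helper292.ForceCH.OmegaOnePreserved P ∧
      p ∈ Pool.Agent.Helper292.ForceCH.CHHolds P) ∧
    (Cardinal.aleph 1 = Cardinal.continuum.{0} →
      (∃ X : Set ℝ, SplitP (OmegaOf (OpenFam X)) (OmegaOf (OpenFam X)) ∧
        ¬ SplitP (OmegaOf (OpenFam (Fin 2 → X))) (OmegaOf (OpenFam (Fin 2 → X))) ∧
        ¬ SplitP (TauOf (OpenFam (Fin 2 → X))) (TauOf (OpenFam (Fin 2 → X)))) ∧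
      (∃ X : Set ℝ, SplitP (OmegaOf (OpenFam X)) (TauOf (OpenFam X)) ∧
        ¬ SplitP (OmegaOf (OpenFam (Fin 2 → X))) (TauOf (OpenFam (Fin 2 → X)))) ∧
      (∃ X : Set ℝ, SplitP (TauOf (OpenFam X)) (TauOf (OpenFam X)) ∧
        ¬ SplitP (TauOf (OpenFam (Fin 2 → X))) (TauOf (OpenFam (Fin 2 → X))))) ∧
    ((¬ ∃ A : Set (Set ℕ), Pool.Agent.Helper971.SqR.ChainUltra A) →
      ∀ (X : Set ℝ) (k : ℕ),
        SplitP (TauOf (OpenFam (Fin k → X))) (TauOf (OpenFam (Fin k → X)))) := by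
  refine ⟨?_, fun hCH => ⟨?_, ?_, ?_⟩, fun hno X k =>
    Pool.Agent.Helper971.SqR.split_of_no_chain hno⟩
  · obtain ⟨P, i, h1, h2⟩ := Pool.Agent.Helper292.ForceCH.exists_forcing
    exact ⟨P, i, h1, fun p => ⟨(h2 p).1, (h2 p).2.2⟩⟩
  · obtain ⟨X, h1, h2⟩ := Pool.Agent.Helper971.SqR.omega_omega hCH
    exact ⟨X, h1, fun h => h2 (Pool.Agent.Helper971.SqR.split_OT h), h2⟩
  · exact Pool.Agent.Helper971.SqR.omega_tau hCH
  · obtain ⟨X, h1, h2⟩ := Pool.Agent.Helper971.SqR.omega_omega hCH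
    exact ⟨X, Pool.Agent.Helper971.SqR.split_OT h1, h2⟩

end Pool.Agent.Results.MP_bc74b8_gt.NonePreserved
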