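import Pool.Agent.Helper185.SierpProd
import Pool.Agent.Helper292.ForceCH

set_option autoImplicit false
set_option linter.all false

open Set Filter Topology

namespace Pool.Agent.Results.MP_bc74b8_gt.TauPowers

open Pool.Agent.Helper185.Sel Pool.Agent.Helper185.Sierp

theorem arctan_embedding : IsEmbedding Real.arctan := by
  have h : Real.arctan = (fun x : Set.Ioo (-(Real.pi / 2)) (Real.pi / 2) => (x : ℝ)) ∘
      Real.tanOrderIso.symm.toHomeomorph := by
    funext x
    rfl
  rw [h]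
  exact IsEmbedding.subtypeVal.comp (Homeomorph.isEmbedding _)

/-- the disjoint union of two sets of reals, as a set of reals -/
def uni (A B : Set ℝ) : Set ℝ := (Real.arctan '' A) ∪ ((fun x => Real.arctan x + 10) '' B)

noncomputable def f0 (A B : Set ℝ) (a : A) : uni A B := ⟨Real.arctan a, Or.inl ⟨a, a.2, rfl⟩⟩
noncomputable def f1 (A B : Set ℝ) (b : B) : uni A B := ⟨Real.arctan b + 10, Or.inr ⟨b, b.2, rfl⟩⟩

theorem at_lt (x : ℝ) : Real.arctan x < 2 := by
  have := Real.arctan_lt_pi_div_two x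
  have := Real.pi_lt_four
  linarith

theorem at_gt (x : ℝ) : -2 < Real.arctan x := by
  have := Real.neg_pi_div_two_lt_arctan x
  have := Real.pi_lt_four
  linarith

theorem f0_closed (A B : Set ℝ) : IsClosedEmbedding (f0 A B) := by
  refine ⟨?_, ?_⟩
  · have h : IsEmbedding ((Subtype.val : uni A B → ℝ) ∘ f0 A B) :=
      arctan_embedding.comp IsEmbedding.subtypeVal
    refine IsEmbedding.of_comp ?_ continuous_subtype_val h
    exact (Real.continuous_arctan.comp continuous_subtype_val).subtype_mk _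
  · have : range (f0 A B) = {x : uni A B | x.1 ≤ 5} := by
      ext x
      constructor
      · rintro ⟨a, rfl⟩
        show Real.arctan a ≤ 5
        linarith [at_lt a]
      · intro hx
        rcases x.2 with ⟨a, ha, hax⟩ | ⟨b, hb, hbx⟩
        · exact ⟨⟨a, ha⟩, Subtype.ext hax⟩
        · exfalso
          have h1 : x.1 ≤ 5 := hx
          have h2 := at_gt b
          simp only at hbx
          linarith
    rw [this]
    exact isClosed_le continuous_subtype_val continuous_const

theorem f1_closed (A B : Set ℝ) : IsClosedEmbedding (f1 A B) := by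
  refine ⟨?_, ?_⟩
  · have h : IsEmbedding ((Subtype.val : uni A B → ℝ) ∘ f1 A B) :=
      ((Homeomorph.addRight (10 : ℝ)).isEmbedding.comp arctan_embedding).comp
        IsEmbedding.subtypeVal
    refine IsEmbedding.of_comp ?_ continuous_subtype_val h
    exact ((Real.continuous_arctan.comp continuous_subtype_val).add continuous_const).subtype_mk _
  · have : range (f1 A B) = {x : uni A B | 5 ≤ x.1} := by
      ext x
      constructor
      · rintro ⟨a, rfl⟩
        show 5 ≤ Real.arctan a + 10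
        linarith [at_gt a]
      · intro hx
        rcases x.2 with ⟨a, ha, hax⟩ | ⟨b, hb, hbx⟩
        · exfalso
          have h1 : 5 ≤ x.1 := hx
          have h2 := at_lt a
          linarith
        · exact ⟨⟨b, hb⟩, Subtype.ext hbx⟩
    rw [this]
    exact isClosed_le continuous_const continuous_subtype_val

theorem range_union (A B : Set ℝ) : range (f0 A B) ∪ range (f1 A B) = univ := by
  rw [eq_univ_iff_forall]
  intro x
  rcases x.2 with ⟨a, ha, hax⟩ | ⟨b, hb, hbx⟩
  · exact Or.inl ⟨⟨a, ha⟩, Subtype.ext hax⟩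
  · exact Or.inr ⟨⟨b, hb⟩, Subtype.ext hbx⟩

theorem tauGamma_uni {A B : Set ℝ} (hA : TauGamma (OpenFam A)) (hB : TauGamma (OpenFam B)) :
    TauGamma (OpenFam (uni A B)) :=
  tauGamma_union (adm_open _) (range_union A B)
    (fun U hU => tau_range (f0 A B) (adm_open _) (pull_open (f0_closed A B).continuous) hA hU)
    (fun U hU => tau_range (f1 A B) (adm_open _) (pull_open (f1_closed A B).continuous) hB hU)

/-- `Split(T, T)` passes to closed subspaces. -/
theorem split_closed {Y Z : Type*} [TopologicalSpace Y] [TopologicalSpace Z] {j : Y → Z}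
    (hj : IsClosedEmbedding j) (h : SplitP (TauOf (OpenFam Z)) (TauOf (OpenFam Z))) :
    SplitP (TauOf (OpenFam Y)) (TauOf (OpenFam Y)) := by
  classical
  intro U hU
  rcases isEmpty_or_nonempty Y with hY | hY
  · have hUe : U = ∅ := by
      rw [eq_empty_iff_forall_notMem]
      intro u hu
      have : u = univ := by
        ext x; exact (hY.false x).elim
      exact hU.2.1.2 (this ▸ hu)
    refine ⟨∅, ∅, by simp [hUe], disjoint_bot_left, ⟨∅, subset_rfl, ?_⟩, ⟨∅, subset_rfl, ?_⟩⟩
    · rw [← hUe]; exact hU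
    · rw [← hUe]; exact hU
  let ext : Set Y → Set Z := fun u => (j '' uᶜ)ᶜ
  have hpre : ∀ u, j ⁻¹' (ext u) = u := by
    intro u
    ext x
    simp only [ext, mem_preimage, mem_compl_iff, mem_image, not_exists, not_and]
    constructor
    · intro hx
      by_contra hc
      exact hx x hc rfl
    · rintro hx y hy hyx
      exact hy (hj.injective hyx ▸ hx)
  have hinj : Function.Injective ext := by
    intro u v huv
    rw [← hpre u, ← hpre v, huv]
  have hmem : ∀ u y, j y ∈ ext u ↔ y ∈ u := by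
    intro u y
    have := Set.ext_iff.1 (hpre u) y
    exact this
  have hout : ∀ u z, z ∉ range j → z ∈ ext u := by
    rintro u z hz ⟨y, -, rfl⟩
    exact hz ⟨y, rfl⟩
  obtain ⟨hU1, hU2, hU3, hU4⟩ := hU
  have hUinf : U.Infinite := by
    obtain ⟨y⟩ := hY
    exact (hU3 y).mono (fun u hu => hu.1)
  have hU' : ext '' U ∈ TauOf (OpenFam Z) := by
    refine ⟨?_, ⟨?_, ?_⟩, ?_, ?_⟩
    · rintro _ ⟨u, hu, rfl⟩
      exact (hj.isClosedMap _ (hU1 u hu).isClosed_compl).isOpen_compl
    · rw [eq_univ_iff_forall]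
      intro z
      by_cases hz : z ∈ range j
      · obtain ⟨y, rfl⟩ := hz
        have : y ∈ ⋃₀ U := by rw [hU2.1]; exact mem_univ _
        obtain ⟨u, hu, hyu⟩ := this
        exact ⟨ext u, ⟨u, hu, rfl⟩, (hmem u y).2 hyu⟩
      · obtain ⟨u, hu⟩ := hUinf.nonempty
        exact ⟨ext u, ⟨u, hu, rfl⟩, hout u z hz⟩
    · rintro ⟨u, hu, hu'⟩
      apply hU2.2
      have : u = univ := by rw [← hpre u, hu', preimage_univ]
      exact this ▸ hu
    · intro z
      by_cases hz : z ∈ range j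
      · obtain ⟨y, rfl⟩ := hz
        refine ((hU3 y).image hinj.injOn).mono ?_
        rintro _ ⟨u, ⟨hu, hyu⟩, rfl⟩
        exact ⟨⟨u, hu, rfl⟩, (hmem u y).2 hyu⟩
      · refine (hUinf.image hinj.injOn).mono ?_
        rintro _ ⟨u, hu, rfl⟩
        exact ⟨⟨u, hu, rfl⟩, hout u z hz⟩
    · intro z w
      by_cases hz : z ∈ range j
      · by_cases hw : w ∈ range j
        · obtain ⟨y, rfl⟩ := hz
          obtain ⟨x, rfl⟩ := hw
          rcases hU4 y x with h | h
          · left
            refine (h.image ext).subset ?_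
            rintro _ ⟨⟨u, hu, rfl⟩, h1, h2⟩
            exact ⟨u, ⟨hu, (hmem u y).1 h1, fun h' => h2 ((hmem u x).2 h')⟩, rfl⟩
          · right
            refine (h.image ext).subset ?_
            rintro _ ⟨⟨u, hu, rfl⟩, h1, h2⟩
            exact ⟨u, ⟨hu, (hmem u x).1 h1, fun h' => h2 ((hmem u y).2 h')⟩, rfl⟩
        · left
          convert Set.finite_empty
          rw [eq_empty_iff_forall_notMem]
          rintro _ ⟨⟨u, hu, rfl⟩, h1, h2⟩
          exact h2 (hout u w hw)
      · right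
        convert Set.finite_empty
        rw [eq_empty_iff_forall_notMem]
        rintro _ ⟨⟨u, hu, rfl⟩, h1, h2⟩
        exact h2 (hout u z hz)
  obtain ⟨V, W, hVW, hdis, ⟨V', hV', hV't⟩, W', hW', hW't⟩ := h _ hU'
  have back : ∀ V' : Set (Set Z), V' ⊆ ext '' U → V' ∈ TauOf (OpenFam Z) →
      {u | u ∈ U ∧ ext u ∈ V'} ∈ TauOf (OpenFam Y) := by
    intro V' hsub hV'
    obtain ⟨h1, h2, h3, h4⟩ := hV'
    refine ⟨?_, ⟨?_, ?_⟩, ?_, ?_⟩
    · rintro u ⟨hu, -⟩
      exact hU1 u hu
    · rw [eq_univ_iff_forall]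
      intro y
      have : j y ∈ ⋃₀ V' := by rw [h2.1]; exact mem_univ _
      obtain ⟨v, hv, hyv⟩ := this
      obtain ⟨u, hu, rfl⟩ := hsub hv
      exact ⟨u, ⟨hu, hv⟩, (hmem u y).1 hyv⟩
    · rintro ⟨hu, -⟩
      exact hU2.2 hu
    · intro y hfin
      apply h3 (j y)
      refine (hfin.image ext).subset ?_
      rintro v ⟨hv, hyv⟩
      obtain ⟨u, hu, rfl⟩ := hsub hv
      exact ⟨u, ⟨⟨hu, hv⟩, (hmem u y).1 hyv⟩, rfl⟩
    · intro x y
      rcases h4 (j x) (j y) with h | h
      · left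
        refine (h.preimage hinj.injOn).subset ?_
        rintro u ⟨⟨hu, hv⟩, h1, h2⟩
        exact ⟨hv, (hmem u x).2 h1, fun h' => h2 ((hmem u y).1 h')⟩
      · right
        refine (h.preimage hinj.injOn).subset ?_
        rintro u ⟨⟨hu, hv⟩, h1, h2⟩
        exact ⟨hv, (hmem u y).2 h1, fun h' => h2 ((hmem u x).1 h')⟩
  refine ⟨{u | u ∈ U ∧ ext u ∈ V}, {u | u ∈ U ∧ ext u ∈ W}, ?_, ?_,
    ⟨{u | u ∈ U ∧ ext u ∈ V'}, ?_, back V' ?_ hV't⟩, {u | u ∈ U ∧ ext u ∈ W'}, ?_,
    back W' ?_ hW't⟩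
  · ext u
    constructor
    · rintro (h | h)
      · exact h.1
      · exact h.1
    · intro hu
      have : ext u ∈ V ∪ W := by rw [hVW]; exact ⟨u, hu, rfl⟩
      rcases this with h | h
      · exact Or.inl ⟨hu, h⟩
      · exact Or.inr ⟨hu, h⟩
  · rw [Set.disjoint_left]
    rintro u ⟨-, h1⟩ ⟨-, h2⟩
    exact Set.disjoint_left.1 hdis h1 h2
  · rintro u ⟨h1, h2⟩
    exact ⟨h1, hV' h2⟩
  · exact hV'.trans (by rw [← hVW]; exact subset_union_left)
  · rintro u ⟨h1, h2⟩
    exact ⟨h1, hW' h2⟩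
  · exact hW'.trans (by rw [← hVW]; exact subset_union_right)

theorem under_ch (hCH : Cardinal.aleph 1 = Cardinal.continuum.{0}) :
    ∃ X : Set ℝ, SplitP (TauOf (OpenFam X)) (TauOf (OpenFam X)) ∧
      ¬ SplitP (TauOf (OpenFam (Fin 2 → X))) (TauOf (OpenFam (Fin 2 → X))) := by
  obtain ⟨A, B, hA, hB, hAB⟩ := exists_product hCH
  refine ⟨uni A B, split_of_tauGamma (adm_open _) (tauGamma_uni hA hB), fun h => hAB ?_⟩
  have hj : IsClosedEmbedding ((Homeomorph.finTwoArrow (X := uni A B)).symm ∘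
      Prod.map (f0 A B) (f1 A B)) :=
    (Homeomorph.isClosedEmbedding _).comp ((f0_closed A B).prodMap (f1_closed A B))
  exact split_closed hj h

theorem result :
    (∃ (P : Type) (_ : Preorder P), Nonempty P ∧ ∀ p : P,
      p ∈ Pool.Agent.Helper292.ForceCH.OmegaOnePreserved P ∧
      p ∈ Pool.Agent.Helper292.ForceCH.CHHolds P) ∧
    (Cardinal.aleph 1 = Cardinal.continuum.{0} →
      ∃ X : Set ℝ, SplitP (TauOf (OpenFam X)) (TauOf (OpenFam X)) ∧
        ¬ SplitP (TauOf (OpenFam (Fin 2 → X))) (TauOf (OpenFam (Fin 2 → X)))) := by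
  refine ⟨?_, under_ch⟩
  obtain ⟨P, i, h1, h2⟩ := Pool.Agent.Helper292.ForceCH.exists_forcing
  exact ⟨P, i, h1, fun p => ⟨(h2 p).1, (h2 p).2.2⟩⟩

end Pool.Agent.Results.MP_bc74b8_gt.TauPowers
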